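import Mathlib

/-!
The classes `B_r` of weights are open-ended: `B_r` is the union of the `B_q`, `1 < q < r`.
-/

set_option autoImplicit false

open MeasureTheory Set
open scoped ENNReal NNReal

namespace Pool.Agent.Q84.Old.OpenEnded

/-- A weight: a nonnegative locally integrable function on the line. -/
structure IsWeight (U : ℝ → ℝ) : Prop where
  nonneg : ∀ x, 0 ≤ U x
  loc : LocallyIntegrable U volume

/-- The class `A_p`. -/
def A (p : ℝ) (U : ℝ → ℝ) : Prop := ∃ C : ℝ≥0, ∀ a b : ℝ, a < b →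
  ((ENNReal.ofReal (b - a))⁻¹ * ∫⁻ x in Icc a b, ENNReal.ofReal (U x)) *
    ((ENNReal.ofReal (b - a))⁻¹ *
      ∫⁻ x in Icc a b, ENNReal.ofReal (U x) ^ (-1 / (p - 1))) ^ (p - 1) ≤ C

/-- The class `B_r`: `∫ |I|^(r-1) U(x) / (|I|^r + |x - x_I|^r) dx ≤ C / |I| ∫_I U` for all
intervals `I` (centre `x_I = a`, length `|I| = l`). -/
def B (r : ℝ) (U : ℝ → ℝ) : Prop := ∃ C : ℝ≥0, ∀ a l : ℝ, 0 < l →
  ∫⁻ x, ENNReal.ofReal (l ^ (r - 1) * U x / (l ^ r + |x - a| ^ r)) ≤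
    C / ENNReal.ofReal l * ∫⁻ x in Icc (a - l / 2) (a + l / 2), ENNReal.ofReal (U x)

/-- the kernel -/
noncomputable def K (r D : ℝ) : ℝ := 1 / (1 + D ^ r)

theorem K_nonneg {r D : ℝ} (hD : 0 ≤ D) : 0 ≤ K r D := by
  unfold K; positivity

/-- the integral -/
noncomputable def M (U : ℝ → ℝ) (a r l : ℝ) : ℝ≥0∞ :=
  ∫⁻ x, ENNReal.ofReal (K r (|x - a| / l)) * ENNReal.ofReal (U x)

/-- the integral over the interval -/
noncomputable def W (U : ℝ → ℝ) (a l : ℝ) : ℝ≥0∞ :=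
  ∫⁻ x in Icc (a - l / 2) (a + l / 2), ENNReal.ofReal (U x)

theorem W_lt_top {U : ℝ → ℝ} (hU : IsWeight U) (a l : ℝ) : W U a l < ∞ := by
  have h1 : IntegrableOn U (Icc (a - l / 2) (a + l / 2)) volume :=
    hU.loc.integrableOn_isCompact isCompact_Icc
  have h2 := h1.2
  rw [hasFiniteIntegral_iff_enorm] at h2
  refine lt_of_le_of_lt (lintegral_mono fun x => ?_) h2
  rw [← Real.enorm_of_nonneg (hU.nonneg x)]

theorem kernel_eq {l d r u : ℝ} (hl : 0 < l) (hd : 0 ≤ d) :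
    l ^ (r - 1) * u / (l ^ r + d ^ r) = 1 / l * (K r (d / l) * u) := by
  unfold K
  have h1 : 0 < l ^ r := Real.rpow_pos_of_pos hl r
  have h2 : 0 ≤ d ^ r := Real.rpow_nonneg hd r
  rw [Real.rpow_sub_one hl.ne', Real.div_rpow hd hl.le]
  have h3 : l ^ r + d ^ r ≠ 0 := by positivity
  have h4 : 1 + d ^ r / l ^ r ≠ 0 := by positivity
  field_simp

theorem B_iff (U : ℝ → ℝ) (r : ℝ) :
    B r U ↔ ∃ C : ℝ≥0, ∀ a l : ℝ, 0 < l → M U a r l ≤ C * W U a l := by
  have key : ∀ a l : ℝ, 0 < l →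
      ∫⁻ x, ENNReal.ofReal (l ^ (r - 1) * U x / (l ^ r + |x - a| ^ r)) =
        (ENNReal.ofReal l)⁻¹ * M U a r l := by
    intro a l hl
    unfold M
    rw [← lintegral_const_mul' _ _ (by simp [hl])]
    refine lintegral_congr fun x => ?_
    rw [kernel_eq hl (abs_nonneg _), ENNReal.ofReal_mul (by positivity), one_div,
      ENNReal.ofReal_inv_of_pos hl,
      ENNReal.ofReal_mul (K_nonneg (div_nonneg (abs_nonneg _) hl.le))]
  unfold B
  refine exists_congr fun C => forall_congr' fun a => forall_congr' fun l =>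
    forall_congr' fun hl => ?_
  rw [key a l hl]
  have h1 : ENNReal.ofReal l ≠ 0 := by simp [hl]
  have h2 : ENNReal.ofReal l ≠ ∞ := ENNReal.ofReal_ne_top
  have e : (C : ℝ≥0∞) / ENNReal.ofReal l * ∫⁻ x in Icc (a - l / 2) (a + l / 2),
      ENNReal.ofReal (U x) = (ENNReal.ofReal l)⁻¹ * (C * W U a l) := by
    rw [div_eq_mul_inv, W]; ring
  rw [e]
  exact ENNReal.mul_le_mul_iff_right (ENNReal.inv_ne_zero.2 h2) (ENNReal.inv_ne_top.2 h1)

/-! ### The decay of the integrals -/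

theorem K_step {r D : ℝ} (hr : 1 < r) (hD : 0 ≤ D) :
    2 ^ (-r) * K r (D / 2) + (if D ≤ 1 / 2 then 1 / 6 else 0) ≤ K r D := by
  unfold K
  have h2 : (2 : ℝ) ≤ 2 ^ r := by
    calc (2 : ℝ) = 2 ^ (1 : ℝ) := (Real.rpow_one 2).symm
      _ ≤ 2 ^ r := Real.rpow_le_rpow_of_exponent_le (by norm_num) hr.le
  have h3 : 0 ≤ D ^ r := Real.rpow_nonneg hD r
  have e1 : (2 : ℝ) ^ (-r) * (1 / (1 + (D / 2) ^ r)) = 1 / (2 ^ r + D ^ r) := by
    rw [Real.div_rpow hD (by norm_num), Real.rpow_neg (by norm_num)]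
    have h4 : (2 : ℝ) ^ r ≠ 0 := by positivity
    field_simp
  rw [e1]
  split_ifs with h
  · have h5 : D ^ r ≤ 1 := Real.rpow_le_one hD (by linarith) (by linarith)
    rw [div_add_div _ _ (by positivity) (by norm_num), div_le_div_iff₀ (by positivity)
      (by positivity)]
    nlinarith
  · rw [add_zero]
    exact one_div_le_one_div_of_le (by positivity) (by linarith)

theorem M_step {U : ℝ → ℝ} (a : ℝ) {r l : ℝ} (hr : 1 < r) (hl : 0 < l) :
    ENNReal.ofReal (2 ^ (-r)) * M U a r (2 * l) + ENNReal.ofReal (1 / 6) * W U a l ≤ M U a r l := by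
  unfold M W
  rw [← lintegral_const_mul' _ _ ENNReal.ofReal_ne_top,
    ← lintegral_indicator measurableSet_Icc, ← lintegral_const_mul' _ _ ENNReal.ofReal_ne_top]
  refine (le_lintegral_add _ _).trans (lintegral_mono fun x => ?_)
  beta_reduce
  have hD : 0 ≤ |x - a| / l := div_nonneg (abs_nonneg _) hl.le
  have h1 := K_step hr hD
  rw [show |x - a| / (2 * l) = |x - a| / l / 2 by field_simp, ← mul_assoc,
    ← ENNReal.ofReal_mul (by positivity)]
  by_cases hx : x ∈ Icc (a - l / 2) (a + l / 2)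
  · rw [indicator_of_mem hx, ← add_mul, ← ENNReal.ofReal_add
      (mul_nonneg (by positivity) (K_nonneg (by positivity))) (by norm_num)]
    have h2 : |x - a| / l ≤ 1 / 2 := by
      rw [div_le_iff₀ hl, abs_le]
      constructor <;> linarith [hx.1, hx.2]
    rw [if_pos h2] at h1
    gcongr
  · rw [indicator_of_notMem hx, mul_zero, add_zero]
    have h3 : 2 ^ (-r) * K r (|x - a| / l / 2) ≤ K r (|x - a| / l) := by
      refine le_trans ?_ h1
      have : (0 : ℝ) ≤ (if |x - a| / l ≤ 1 / 2 then 1 / 6 else 0) := by split_ifs <;> norm_num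
      linarith
    gcongr

theorem M_decay {U : ℝ → ℝ} (hU : IsWeight U) {r : ℝ} (hr : 1 < r) {C : ℝ≥0} (hC : 1 ≤ C)
    (h : ∀ a l : ℝ, 0 < l → M U a r l ≤ C * W U a l) (a : ℝ) {l : ℝ} (hl : 0 < l) :
    M U a r (2 * l) ≤ ENNReal.ofReal (2 ^ r * (1 - 1 / (6 * C))) * M U a r l := by
  have hfin : ∀ l : ℝ, 0 < l → M U a r l ≠ ∞ := fun l hl =>
    ((h a l hl).trans_lt (ENNReal.mul_lt_top ENNReal.coe_lt_top (W_lt_top hU a l))).ne
  have h1 := M_step (U := U) a hr hl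
  have h2 := h a l hl
  have hW := (W_lt_top hU a l).ne
  have e1 := ENNReal.ofReal_toReal (hfin l hl)
  have e2 := ENNReal.ofReal_toReal (hfin (2 * l) (by positivity))
  have e3 := ENNReal.ofReal_toReal hW
  set m := (M U a r l).toReal
  set m2 := (M U a r (2 * l)).toReal
  set w := (W U a l).toReal
  have hm : 0 ≤ m := ENNReal.toReal_nonneg
  have hm2 : 0 ≤ m2 := ENNReal.toReal_nonneg
  have hw : 0 ≤ w := ENNReal.toReal_nonneg
  have hC0 : (0 : ℝ) < C := lt_of_lt_of_le one_pos (by exact_mod_cast hC)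
  rw [← e1, ← e2, ← e3, ← ENNReal.ofReal_mul (by positivity), ← ENNReal.ofReal_mul (by norm_num),
    ← ENNReal.ofReal_add (by positivity) (by positivity),
    ENNReal.ofReal_le_ofReal_iff hm] at h1
  rw [← e1, ← e3, ← ENNReal.ofReal_coe_nnreal, ← ENNReal.ofReal_mul (NNReal.coe_nonneg C),
    ENNReal.ofReal_le_ofReal_iff (by positivity)] at h2
  rw [← e1, ← e2, ← ENNReal.ofReal_mul]
  · refine ENNReal.ofReal_le_ofReal ?_
    have h3 : m / (6 * C) ≤ w / 6 := by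
      rw [div_le_div_iff₀ (by positivity) (by norm_num)]
      linarith
    have h4 : (2 : ℝ) ^ (-r) * m2 ≤ m - m / (6 * C) := by linarith
    have h5 : (0 : ℝ) < 2 ^ r := by positivity
    calc m2 = 2 ^ r * (2 ^ (-r) * m2) := by
          rw [← mul_assoc, ← Real.rpow_add (by norm_num)]; simp
      _ ≤ 2 ^ r * (m - m / (6 * C)) := by gcongr
      _ = 2 ^ r * (1 - 1 / (6 * C)) * m := by ring
  · have h6 : 1 / (6 * (C : ℝ)) ≤ 1 := by
      rw [div_le_one (by positivity)]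
      have : (1 : ℝ) ≤ C := by exact_mod_cast hC
      linarith
    have : (0 : ℝ) ≤ 1 - 1 / (6 * C) := by linarith
    positivity

theorem M_decay_pow {U : ℝ → ℝ} (hU : IsWeight U) {r : ℝ} (hr : 1 < r) {C : ℝ≥0} (hC : 1 ≤ C)
    (h : ∀ a l : ℝ, 0 < l → M U a r l ≤ C * W U a l) (a : ℝ) {l : ℝ} (hl : 0 < l) (k : ℕ) :
    M U a r (2 ^ k * l) ≤ ENNReal.ofReal ((2 ^ r * (1 - 1 / (6 * C))) ^ k) * M U a r l := by
  have hθ : (0 : ℝ) ≤ 2 ^ r * (1 - 1 / (6 * C)) := by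
    have h6 : 1 / (6 * (C : ℝ)) ≤ 1 := by
      have : (1 : ℝ) ≤ C := by exact_mod_cast hC
      rw [div_le_one (by positivity)]
      linarith
    have : (0 : ℝ) ≤ 1 - 1 / (6 * C) := by linarith
    positivity
  induction k with
  | zero => simp
  | succ k ih =>
    rw [show (2 : ℝ) ^ (k + 1) * l = 2 * (2 ^ k * l) by ring]
    refine (M_decay hU hr hC h a (by positivity)).trans ?_
    generalize (2 : ℝ) ^ r * (1 - 1 / (6 * C)) = θ at hθ ih ⊢
    rw [pow_succ', ENNReal.ofReal_mul hθ, mul_assoc]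
    gcongr

theorem K_le_tsum {q r D : ℝ} (hq : 0 < q) (hr : 0 < r) (hD : 0 ≤ D) :
    ∃ k : ℕ, K q D ≤ (1 + 2 ^ r) * (2 ^ (-q)) ^ k * K r (D / 2 ^ k) := by
  rcases lt_or_ge D 1 with h | h
  · refine ⟨0, ?_⟩
    have h1 : D ^ q ≥ 0 := Real.rpow_nonneg hD q
    have h2 : D ^ r ≤ 1 := Real.rpow_le_one hD h.le hr.le
    have h3 : 0 ≤ D ^ r := Real.rpow_nonneg hD r
    have h4 : (1 : ℝ) ≤ 2 ^ r := Real.one_le_rpow (by norm_num) hr.le
    unfold K
    rw [pow_zero, pow_zero, div_one, mul_one, mul_one_div, div_le_div_iff₀ (by positivity)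
      (by positivity)]
    nlinarith
  · obtain ⟨k, hk1, hk2⟩ : ∃ k : ℕ, (2 : ℝ) ^ k ≤ D ∧ D < 2 ^ (k + 1) :=
      exists_nat_pow_near h (by norm_num)
    refine ⟨k, ?_⟩
    unfold K
    have h5 : (D / 2 ^ k) ^ r ≤ 2 ^ r := by
      refine Real.rpow_le_rpow (by positivity) ?_ hr.le
      rw [div_le_iff₀ (by positivity)]
      rw [pow_succ] at hk2
      linarith
    have h6 : 0 ≤ (D / 2 ^ k) ^ r := Real.rpow_nonneg (by positivity) r
    have h7 : 1 ≤ (1 + 2 ^ r) * (1 / (1 + (D / 2 ^ k) ^ r)) := by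
      rw [mul_one_div, one_le_div (by positivity)]
      linarith
    have h8 : 1 / (1 + D ^ q) ≤ (2 ^ (-q)) ^ k := by
      have h9 : ((2 : ℝ) ^ (-q)) ^ k = ((2 ^ k : ℝ) ^ q)⁻¹ := by
        rw [← Real.rpow_natCast, ← Real.rpow_mul (by norm_num), ← Real.rpow_natCast 2 k,
          ← Real.rpow_mul (by norm_num), ← Real.rpow_neg (by norm_num)]
        congr 1
        ring
      rw [h9, one_div]
      refine inv_anti₀ (by positivity) ?_
      have := Real.rpow_le_rpow (by positivity) hk1 hq.le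
      linarith
    calc 1 / (1 + D ^ q) ≤ (2 ^ (-q)) ^ k * 1 := by rw [mul_one]; exact h8
      _ ≤ (2 ^ (-q)) ^ k * ((1 + 2 ^ r) * (1 / (1 + (D / 2 ^ k) ^ r))) := by gcongr
      _ = _ := by ring

theorem M_le {U : ℝ → ℝ} (hU : IsWeight U) {q r : ℝ} (hq : 0 < q) (hr : 1 < r) {C : ℝ≥0}
    (hC : 1 ≤ C) (h : ∀ a l : ℝ, 0 < l → M U a r l ≤ C * W U a l)
    (hqr : 2 ^ (r - q) * (1 - 1 / (6 * (C : ℝ))) < (1 : ℝ)) (a : ℝ) {l : ℝ} (hl : 0 < l) :
    M U a q l ≤
      ENNReal.ofReal ((1 + 2 ^ r) * (1 - 2 ^ (r - q) * (1 - 1 / (6 * (C : ℝ)))  : ℝ)⁻¹) *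
        M U a r l := by
  have hθ : (0 : ℝ) ≤ 1 - 1 / (6 * C) := by
    have : (1 : ℝ) ≤ C := by exact_mod_cast hC
    have h6 : 1 / (6 * (C : ℝ)) ≤ 1 := by
      rw [div_le_one (by positivity)]
      linarith
    linarith
  have hmeas : ∀ (b : ℝ) (k : ℕ), AEMeasurable (fun x => ENNReal.ofReal (b * (2 ^ (-q)) ^ k *
      K r (|x - a| / l / 2 ^ k)) * ENNReal.ofReal (U x)) volume := by
    intro b k
    refine AEMeasurable.mul ?_ (hU.loc.aestronglyMeasurable.aemeasurable.ennreal_ofReal)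
    unfold K
    exact (Measurable.ennreal_ofReal (by fun_prop)).aemeasurable
  calc M U a q l ≤ ∫⁻ x, ∑' k : ℕ, ENNReal.ofReal ((1 + 2 ^ r) * (2 ^ (-q)) ^ k *
        K r (|x - a| / l / 2 ^ k)) * ENNReal.ofReal (U x) := by
        unfold M
        refine lintegral_mono fun x => ?_
        obtain ⟨k, hk⟩ := K_le_tsum hq (by linarith : 0 < r)
          (div_nonneg (abs_nonneg (x - a)) hl.le)
        refine le_trans ?_ (ENNReal.le_tsum k)
        gcongr
    _ = ∑' k : ℕ, ∫⁻ x, ENNReal.ofReal ((1 + 2 ^ r) * (2 ^ (-q)) ^ k *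
        K r (|x - a| / l / 2 ^ k)) * ENNReal.ofReal (U x) := by
        rw [lintegral_tsum fun k => hmeas _ k]
    _ = ∑' k : ℕ, ENNReal.ofReal ((1 + 2 ^ r) * (2 ^ (-q)) ^ k) * M U a r (2 ^ k * l) := by
        refine tsum_congr fun k => ?_
        unfold M
        rw [← lintegral_const_mul' _ _ ENNReal.ofReal_ne_top]
        refine lintegral_congr fun x => ?_
        rw [← mul_assoc, div_div, mul_comm l, ENNReal.ofReal_mul (by positivity)]
    _ ≤ ∑' k : ℕ, ENNReal.ofReal ((1 + 2 ^ r) * (2 ^ (r - q) * (1 - 1 / (6 * (C : ℝ)))) ^ k) *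
        M U a r l := by
        refine ENNReal.tsum_le_tsum fun k => ?_
        refine (mul_le_mul_right (M_decay_pow hU hr hC h a hl k) _).trans (le_of_eq ?_)
        rw [← mul_assoc, ← ENNReal.ofReal_mul (by positivity)]
        congr 2
        rw [mul_assoc, ← mul_pow, ← mul_assoc, ← Real.rpow_add (by norm_num), neg_add_eq_sub]
    _ = _ := by
        rw [ENNReal.tsum_mul_right, ← ENNReal.ofReal_tsum_of_nonneg]
        · rw [tsum_mul_left, tsum_geometric_of_lt_one (by positivity) hqr]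
        · intro k; positivity
        · exact (summable_geometric_of_lt_one (by positivity) hqr).mul_left _

/-- the class is open ended -/
theorem B_open {U : ℝ → ℝ} (hU : IsWeight U) {r : ℝ} (hr : 1 < r) (h : B r U) :
    ∃ q, 1 < q ∧ q < r ∧ B q U := by
  rw [B_iff] at h
  obtain ⟨C, hC⟩ := h
  have hC' : ∀ a l : ℝ, 0 < l → M U a r l ≤ (C + 1 : ℝ≥0) * W U a l := fun a l hl =>
    (hC a l hl).trans (by gcongr; simp)
  have h1 : (1 : ℝ≥0) ≤ C + 1 := by simp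
  set θ : ℝ := 1 - 1 / (6 * ((C + 1 : ℝ≥0) : ℝ)) with hθ
  have hθ1 : θ < 1 := by
    rw [hθ]
    have : 0 < 1 / (6 * ((C + 1 : ℝ≥0) : ℝ)) := by positivity
    linarith
  -- choice of `q`
  have hcont : Filter.Tendsto (fun q : ℝ => 2 ^ (r - q) * θ) (nhdsWithin r (Iio r))
      (nhds (2 ^ (r - r) * θ)) := by
    have : Continuous fun q : ℝ => (2 : ℝ) ^ (r - q) * θ :=
      ((continuous_const.rpow (continuous_const.sub continuous_id)
        (fun _ => Or.inl (by norm_num)))).mul continuous_const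
    exact this.continuousAt.tendsto.mono_left nhdsWithin_le_nhds
  rw [sub_self, Real.rpow_zero, one_mul] at hcont
  have h2 : ∀ᶠ q in nhdsWithin r (Iio r), (2 : ℝ) ^ (r - q) * θ < 1 :=
    hcont.eventually (eventually_lt_nhds hθ1)
  have h3 : ∀ᶠ q in nhdsWithin r (Iio r), 1 < q :=
    (eventually_gt_nhds hr).filter_mono nhdsWithin_le_nhds
  have h4 : ∀ᶠ q in nhdsWithin r (Iio r), q < r := eventually_mem_nhdsWithin
  obtain ⟨q, hq1, hq2, hq3⟩ := (h2.and (h3.and h4)).exists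
  refine ⟨q, hq2, hq3, ?_⟩
  rw [B_iff]
  refine ⟨Real.toNNReal ((1 + 2 ^ r) * (1 - 2 ^ (r - q) * θ)⁻¹) * (C + 1), fun a l hl => ?_⟩
  have h5 := M_le hU (by linarith : 0 < q) hr h1 hC' hq1 a hl
  refine h5.trans ?_
  rw [ENNReal.coe_mul, mul_assoc]
  exact mul_le_mul_right (hC' a l hl) _

/-- the classes increase with `r` -/
theorem B_mono {U : ℝ → ℝ} {q r : ℝ} (hq : 0 < q) (hqr : q ≤ r) (h : B q U) : B r U := by
  rw [B_iff] at h ⊢
  obtain ⟨C, hC⟩ := h
  refine ⟨2 * C, fun a l hl => ?_⟩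
  rw [ENNReal.coe_mul, mul_assoc]
  refine le_trans ?_ (mul_le_mul_right (hC a l hl) _)
  unfold M
  rw [← lintegral_const_mul' _ _ ENNReal.coe_ne_top]
  refine lintegral_mono fun x => ?_
  beta_reduce
  rw [← mul_assoc]
  gcongr
  have hD : 0 ≤ |x - a| / l := div_nonneg (abs_nonneg _) hl.le
  generalize |x - a| / l = D at hD ⊢
  rw [show ((2 : ℝ≥0) : ℝ≥0∞) = ENNReal.ofReal 2 by simp, ← ENNReal.ofReal_mul (by norm_num)]
  refine ENNReal.ofReal_le_ofReal ?_
  unfold K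
  have h1 : 0 ≤ D ^ q := Real.rpow_nonneg hD q
  have h2 : 0 ≤ D ^ r := Real.rpow_nonneg hD r
  rw [mul_one_div, div_le_div_iff₀ (by positivity) (by positivity)]
  rcases le_total D 1 with h3 | h3
  · have h4 : D ^ q ≤ 1 := Real.rpow_le_one hD h3 hq.le
    linarith
  · have h4 : D ^ q ≤ D ^ r := Real.rpow_le_rpow_of_exponent_le h3 hqr
    linarith

theorem result (U : ℝ → ℝ) (hU : IsWeight U) :
    (∀ r : ℝ, 1 < r → (B r U ↔ ∃ q, 1 < q ∧ q < r ∧ B q U)) ∧
    ∀ lam p : ℝ, 1 < lam → lam ≤ 2 → 2 / lam < p → p < 2 →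
      ((A p U ∧ B (lam * p / 2) U) ↔
        (A p U ∧ ∃ q, 1 < q ∧ q < min (lam * p / 2) lam ∧ B q U)) := by
  have key : ∀ r : ℝ, 1 < r → (B r U ↔ ∃ q, 1 < q ∧ q < r ∧ B q U) := fun r hr =>
    ⟨fun h => B_open hU hr h, fun ⟨q, h1, h2, h3⟩ => B_mono (by linarith) h2.le h3⟩
  refine ⟨key, fun lam p h1 h2 h3 h4 => ?_⟩
  rw [div_lt_iff₀ (by linarith)] at h3
  have h5 : min (lam * p / 2) lam = lam * p / 2 := min_eq_left (by nlinarith)
  rw [h5, key (lam * p / 2) (by linarith)]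

end Pool.Agent.Q84.Old.OpenEnded
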